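import Mathlib

namespace Pool.Agent.Results.MP_3af439_nt.Counter

/-- The generalized totient: the number of `i` with `1 ≤ i ≤ ⌊n/e⌋` and `gcd(i,n) = 1`. -/
def phiE (e n : ℕ) : ℕ :=
  ((Finset.Icc 1 (n / e)).filter (fun i => Nat.gcd i n = 1)).card

/-- The exceptional set `E` of the problem. -/
def E : Finset ℕ := {4, 6, 8, 9, 12, 16, 21, 65, 425, 1729, 3201, 3531, 22865}

/-- Count of integers in `[1,N]` coprime to `m` (proof tool). -/
def cnt (N m : ℕ) : ℕ := ((Finset.Icc 1 N).filter (fun i => Nat.gcd i m = 1)).card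

theorem cnt_one (N : ℕ) : cnt N 1 = N := by
  simp [cnt]

theorem cnt_step (p m pm N N' : ℕ) (hp : p.Prime) (hpm : Nat.Coprime p m) (h1 : pm = p * m)
    (h2 : N' = N / p) : cnt N pm + cnt N' m = cnt N m := by
  subst h1 h2
  unfold cnt
  rw [← Finset.card_filter_add_card_filter_not (s := (Finset.Icc 1 N).filter
    (fun i => Nat.gcd i m = 1)) (fun i => ¬ p ∣ i)]
  congr 1
  · congr 1
    ext i
    simp only [Finset.mem_filter]
    have e1 : Nat.gcd i (p * m) = 1 ↔ (Nat.gcd i m = 1 ∧ ¬ p ∣ i) := by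
      change Nat.Coprime i (p * m) ↔ (Nat.Coprime i m ∧ ¬ p ∣ i)
      rw [Nat.coprime_mul_iff_right, Nat.coprime_comm (n := i) (m := p),
        hp.coprime_iff_not_dvd, and_comm]
    rw [e1, and_assoc]
  · refine Finset.card_bij (fun j _ => p * j) ?_ ?_ ?_
    · intro j hj
      simp only [Finset.mem_filter, Finset.mem_Icc, not_not] at hj ⊢
      refine ⟨⟨⟨Nat.mul_pos hp.pos hj.1.1, ?_⟩, Nat.Coprime.mul_left hpm hj.2⟩, dvd_mul_right _ _⟩
      have := (Nat.le_div_iff_mul_le hp.pos).mp hj.1.2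
      rwa [mul_comm]
    · intro a _ b _ h
      exact Nat.eq_of_mul_eq_mul_left hp.pos h
    · intro i hi
      simp only [Finset.mem_filter, Finset.mem_Icc, not_not] at hi
      obtain ⟨⟨⟨h1, h2⟩, h3⟩, j, rfl⟩ := hi
      refine ⟨j, ?_, rfl⟩
      simp only [Finset.mem_filter, Finset.mem_Icc]
      refine ⟨⟨Nat.pos_of_mul_pos_left h1, ?_⟩, Nat.Coprime.coprime_mul_left h3⟩
      rw [Nat.le_div_iff_mul_le hp.pos, mul_comm]
      exact h2

theorem c4 (N : ℕ) : cnt N 3517 + N / 3517 = N := by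
  have := cnt_step 3517 1 3517 N _ (by norm_num) (by norm_num) (by norm_num) rfl
  rwa [cnt_one, cnt_one] at this

theorem c3 (N : ℕ) : cnt N 80891 + cnt (N / 23) 3517 = cnt N 3517 :=
  cnt_step 23 3517 80891 N _ (by norm_num) (by norm_num) (by norm_num) rfl

theorem c2 (N : ℕ) : cnt N 1375147 + cnt (N / 17) 80891 = cnt N 80891 :=
  cnt_step 17 80891 1375147 N _ (by norm_num) (by norm_num) (by norm_num) rfl

theorem c1 (N : ℕ) : cnt N 4125441 + cnt (N / 3) 1375147 = cnt N 1375147 :=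
  cnt_step 3 1375147 4125441 N _ (by norm_num) (by norm_num) (by norm_num) rfl

theorem key (N : ℕ) (hN : N = 1375147) : cnt N 4125441 = 825088 := by
  have a1 := c1 N
  have a2 := c2 N
  have a3 := c2 (N / 3)
  have a4 := c3 N
  have a5 := c3 (N / 17)
  have a6 := c3 (N / 3)
  have a7 := c3 (N / 3 / 17)
  have b1 := c4 N
  have b2 := c4 (N / 23)
  have b3 := c4 (N / 17)
  have b4 := c4 (N / 17 / 23)
  have b5 := c4 (N / 3)
  have b6 := c4 (N / 3 / 23)
  have b7 := c4 (N / 3 / 17)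
  have b8 := c4 (N / 3 / 17 / 23)
  omega

theorem phi_val (n : ℕ) (hn : n = 4125441) : phiE 3 n = 825088 := by
  have h := key (n / 3) (by omega)
  rw [← hn] at h
  exact h

theorem result :
    ¬ (∀ n : ℕ, 4 ≤ n → ¬ n.Prime → n ∉ E → ¬ (phiE 3 n ∣ n - 1)) := by
  intro h
  refine h 4125441 (by norm_num) (by norm_num) (by simp [E]) ?_
  rw [phi_val _ rfl]
  norm_num

end Pool.Agent.Results.MP_3af439_nt.Counter
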